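import Mathlib
import Pool.Agent.X165.RD3

/-!
# Rhombic dodecahedra of given mean width: the intrinsic volumes are maximal exactly for the
regular ones

For `1 < k ≤ d` the `k`th intrinsic volume attains its maximum over the rhombic dodecahedra in `ℝᵈ`
(zonotopes with `d + 1` generating segments) of mean width `1` at the regular ones, and only there.
-/

set_option autoImplicit false

open Finset MeasureTheory
open scoped Pointwise

namespace Pool.Agent.Results.MP_c3e14a_gt.RegularMaximisers

/-- Euclidean space `ℝᵈ` -/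
abbrev Eu (d : ℕ) := EuclideanSpace ℝ (Fin d)

/-- `Z` is a translate of the Minkowski sum of the segments `[o, p i]`, and the vectors `p i` span
the space -/
def Generates {d n : ℕ} (p : Fin n → Eu d) (Z : Set (Eu d)) : Prop :=
  Submodule.span ℝ (Set.range p) = ⊤ ∧ ∃ v : Eu d, Z = {v} + ∑ i, segment ℝ (0 : Eu d) (p i)

/-- the volume of the `m`-dimensional unit ball -/
noncomputable def kappa (m : ℕ) : ℝ := volume.real (Metric.closedBall (0 : Eu m) 1)

/-- the mean width of the zonotope with generators `p`: `2 κ_{d-1} / (d κ_d) ∑ |p_i|` -/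
noncomputable def meanWidth {d n : ℕ} (p : Fin n → Eu d) : ℝ :=
  2 * kappa (d - 1) / (d * kappa d) * ∑ i, ‖p i‖

/-- the `k`th intrinsic volume of the zonotope with generators `p`: the sum of the `k`-volumes
`√(det Gram)` of the parallelotopes spanned by `k` of the generators -/
noncomputable def intrinsicVolume {d n : ℕ} (k : ℕ) (p : Fin n → Eu d) : ℝ :=
  ∑ Q ∈ powersetCard k (univ : Finset (Fin n)),
    √(Matrix.of fun i j : {i // i ∈ Q} => inner ℝ (p i) (p j)).det

/-- the points `q i` are the vertices of a regular simplex centred at the origin -/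
def RegularSimplex {d : ℕ} (q : Fin (d + 1) → Eu d) : Prop :=
  (∃ s : ℝ, 0 < s ∧ ∀ i j, i ≠ j → dist (q i) (q j) = s) ∧ ∑ i, q i = 0

/-- regular rhombic dodecahedra -/
def RegularDodecahedron {d : ℕ} (Z : Set (Eu d)) : Prop :=
  ∃ q : Fin (d + 1) → Eu d, RegularSimplex q ∧ Generates q Z

open Pool.Agent.X165.RD

lemma kappa_pos (m : ℕ) : 0 < kappa m := by
  unfold kappa
  rw [measureReal_def]
  exact ENNReal.toReal_pos (Metric.measure_closedBall_pos volume _ one_pos).ne'
    (isCompact_closedBall _ _).measure_lt_top.ne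

/-- **The maximisers of the intrinsic volumes among the rhombic dodecahedra of mean width `1` are
the regular ones.** -/
theorem result (d k : ℕ) (h1 : 1 < k) (h2 : k ≤ d) :
    -- there are regular rhombic dodecahedra of mean width `1`
    (∃ (q : Fin (d + 1) → Eu d), RegularSimplex q ∧ meanWidth q = 1) ∧
    -- they are maximisers
    (∀ q : Fin (d + 1) → Eu d, RegularSimplex q → meanWidth q = 1 →
      Submodule.span ℝ (Set.range q) = ⊤ ∧
      ∀ p : Fin (d + 1) → Eu d, meanWidth p = 1 → intrinsicVolume k p ≤ intrinsicVolume k q) ∧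
    -- every maximiser is regular
    (∀ (Z : Set (Eu d)) (p : Fin (d + 1) → Eu d), Generates p Z → meanWidth p = 1 →
      (∀ (Z' : Set (Eu d)) (p' : Fin (d + 1) → Eu d), Generates p' Z' → meanWidth p' = 1 →
        intrinsicVolume k p' ≤ intrinsicVolume k p) → RegularDodecahedron Z) := by
  have hd : 0 < d := by omega
  have hdR : (0 : ℝ) < d := by exact_mod_cast hd
  obtain ⟨C, hC⟩ : ∃ C, C = 2 * kappa (d - 1) / (d * kappa d) := ⟨_, rfl⟩
  have hC0 : 0 < C := by
    rw [hC]
    have h3 := kappa_pos (d - 1)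
    have h4 := kappa_pos d
    positivity
  have hmw : ∀ {n : ℕ} (p : Fin n → Eu d), meanWidth p = C * ∑ i, ‖p i‖ := by
    intro n p; rw [hC]; rfl
  have hsum : ∀ p : Fin (d + 1) → Eu d, meanWidth p = 1 → ∑ i, ‖p i‖ = 1 / C := by
    intro p hp
    rw [hmw] at hp
    rw [eq_div_iff hC0.ne']
    linarith
  have hmax : ∀ q : Fin (d + 1) → Eu d, RegularSimplex q → meanWidth q = 1 →
      Submodule.span ℝ (Set.range q) = ⊤ ∧ intrinsicVolume k q ^ 2 = bd d k (1 / C) := by
    intro q hq hw
    obtain ⟨c, hc, hg⟩ := gram_of_regSimplex (q := q) hq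
    refine ⟨gram_span hc hg, ?_⟩
    rw [← hsum q hw]
    exact gram_Vk hc hg hd h2
  have hnn : ∀ p : Fin (d + 1) → Eu d, 0 ≤ intrinsicVolume k p := fun p => Vk_nonneg k p
  have hle : ∀ p : Fin (d + 1) → Eu d, meanWidth p = 1 → intrinsicVolume k p ^ 2 ≤ bd d k (1 / C) := by
    intro p hp
    rw [← hsum p hp]
    exact (main_ineq (by omega) h2 p).1
  have hex : ∃ (q : Fin (d + 1) → Eu d), RegularSimplex q ∧ meanWidth q = 1 := by
    obtain ⟨q, hq⟩ := exists_gram hd
    have hS : 0 < ∑ i, ‖q i‖ := by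
      refine sum_pos (fun i _ => ?_) univ_nonempty
      rw [norm_pos_iff]
      intro h0
      have := gram_norm hq i
      rw [h0, norm_zero] at this
      have h5 : (0 : ℝ) < 1 * (d / (d + 1)) := by positivity
      rw [← this] at h5
      simp at h5
    obtain ⟨t, ht⟩ : ∃ t, t = 1 / (C * ∑ i, ‖q i‖) := ⟨_, rfl⟩
    have ht0 : 0 < t := by rw [ht]; positivity
    refine ⟨fun i => t • q i, regSimplex_of_gram (c := t ^ 2 * 1) (by positivity) (gram_smul hq), ?_⟩
    rw [hmw]
    simp_rw [norm_smul, Real.norm_eq_abs, abs_of_pos ht0, ← mul_sum]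
    rw [ht]
    field_simp
  refine ⟨hex, fun q hq hw => ⟨(hmax q hq hw).1, fun p hp => ?_⟩, fun Z p hZ hp hmaxp => ?_⟩
  · refine le_of_sq_le_sq ?_ (hnn q)
    rw [(hmax q hq hw).2]
    exact hle p hp
  · obtain ⟨q, hq, hw⟩ := hex
    have h3 := hmaxp _ q ⟨(hmax q hq hw).1, 0, rfl⟩ hw
    have h4 : intrinsicVolume k p ^ 2 = bd d k (1 / C) := by
      refine le_antisymm (hle p hp) ?_
      rw [← (hmax q hq hw).2]
      exact pow_le_pow_left₀ (hnn q) h3 2
    have hS : 0 < ∑ i, ‖p i‖ := by rw [hsum p hp]; positivity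
    obtain ⟨e1, e2⟩ := (main_ineq (by omega) h2 p).2 hS (by rw [hsum p hp]; exact h4)
    obtain ⟨ε, hε, hgram⟩ := signs hS hd e1 e2
    obtain ⟨v, hv⟩ := zon_signs p ε hε
    obtain ⟨-, u, hu⟩ := hZ
    have hpos : 0 < (∑ i, ‖p i‖) ^ 2 / (d * (d + 1)) := by positivity
    refine ⟨fun i => ε i • p i, regSimplex_of_gram hpos hgram, gram_span hpos hgram, u + v, ?_⟩
    rw [hu]
    have hv' : ∑ i, segment ℝ (0 : Eu d) (p i) = {v} + ∑ i, segment ℝ (0 : Eu d) (ε i • p i) := hv
    rw [hv', ← add_assoc, Set.singleton_add_singleton]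

end Pool.Agent.Results.MP_c3e14a_gt.RegularMaximisers
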